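import Pool.Agent.N245.BG.Stm

/-!
# Project BG (MP_b511e9_an), part CLOSE: two critical orbits stay together
-/

set_option autoImplicit false

namespace Pool.Agent.N377.BG

open Pool.Agent.N245.BG Pool.Agent.Y736.HL Pool.Agent.H712R2 Pool.Agent.H713R2

theorem close : Pool.Agent.N245.BG.S_CLOSE := by
  intro c₀ c A n hA hLL he k
  obtain ⟨e, hE⟩ : ∃ e : ℝ, e = ‖c - c₀‖ := ⟨_, rfl⟩
  have he0 : 0 ≤ e := by rw [hE]; exact norm_nonneg _
  rw [← hE] at he ⊢
  induction k using Nat.strong_induction_on with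
  | _ k ih =>
    intro hk
    have h1 := duhamel c₀ c k
    rw [← hE] at h1
    have h2 : ∀ j ∈ Finset.range k,
        LL c₀ (j + 1) k * (e + ‖P 2 j c - P 2 j c₀‖ ^ 2) ≤ 2 * A * e := by
      intro j hj
      have hjk : j < k := Finset.mem_range.1 hj
      have h3 := ih j hjk (by omega)
      have h4 : LL c₀ (j + 1) k ≤ A := hLL (j + 1) k (by omega) (by omega) hk
      have hjn : (j : ℝ) ≤ n := by exact_mod_cast (by omega : j ≤ n)
      have h5 : ‖P 2 j c - P 2 j c₀‖ ≤ 2 * A * e * n :=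
        h3.trans (mul_le_mul_of_nonneg_left hjn (by positivity))
      have h6 : ‖P 2 j c - P 2 j c₀‖ ^ 2 ≤ (2 * A * e * n) ^ 2 :=
        pow_le_pow_left₀ (norm_nonneg _) h5 2
      have h7 : (2 * A * e * n) ^ 2 ≤ e := by
        have := mul_le_mul_of_nonneg_left he he0
        calc (2 * A * e * n) ^ 2 = e * (4 * A ^ 2 * e * (n : ℝ) ^ 2) := by ring
          _ ≤ e * 1 := this
          _ = e := mul_one e
      calc LL c₀ (j + 1) k * (e + ‖P 2 j c - P 2 j c₀‖ ^ 2) ≤ A * (e + e) :=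
            mul_le_mul h4 (by linarith) (by positivity) (by linarith)
        _ = 2 * A * e := by ring
    calc ‖P 2 k c - P 2 k c₀‖ ≤ _ := h1
      _ ≤ ∑ j ∈ Finset.range k, 2 * A * e := Finset.sum_le_sum h2
      _ = 2 * A * e * k := by
        rw [Finset.sum_const, Finset.card_range, nsmul_eq_mul]; ring

end Pool.Agent.N377.BG
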